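import Pool.Agent.Lib.MP_4eafcb_co.Main

set_option autoImplicit false

namespace Pool.Agent.Results.MP_4eafcb_co.ExtraClass

open Pool.Agent.Lib.MP_4eafcb_co

/-- The deletion complex of connected simple regular matroids has a cycle on sixteen elements
that is not a boundary plus a combination of the classes of `U_(1,1)` and the odd wheels. -/
theorem result :
    ∃ z : Chain 16, bd 15 z = 0 ∧ z ∉ LinearMap.range (bd 16) ⊔ wheelSpan 16 :=
  main

end Pool.Agent.Results.MP_4eafcb_co.ExtraClass
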