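import Pool.Agent.Lib.MP_4eafcb_co.OMain

set_option autoImplicit false

namespace Pool.Agent.Results.MP_4eafcb_co.OddClass

open Pool.Agent.Lib.MP_4eafcb_co

/-- The deletion complex of connected simple regular matroids has a cycle on fifteen elements
that is not a boundary plus a combination of the classes of `U_(1,1)` and the odd wheels. -/
theorem result :
    ∃ z : Chain 15, bd 14 z = 0 ∧ z ∉ LinearMap.range (bd 15) ⊔ wheelSpan 15 :=
  Odd.main

end Pool.Agent.Results.MP_4eafcb_co.OddClass
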